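import Pool.Agent.L7h78.DM.Fin
import Pool.Agent.L7h53.DM.Gen

/-!
# Absolute irreducibility at one prime number and semisimplicity at every prime number, in dimension at
most six

Let `(V_ℓ)` be the realizations of a pure motive over `ℚ` of weight `w > 0` and dimension `N` with a
polarization, symmetric or alternating, for all prime numbers `ℓ` (`IsPureSystem`; `Γ` is the Galois
group of `ℚ` and `θ` the identity, or `Γ` is the fundamental group of a variety with a rational point,
as in the starting results on the conjecture of Grothendieck and Serre).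

**Theorem.** Suppose that `N ≤ 6` and that for ONE prime number `ℓ₀` the representation `V_ℓ₀` is
absolutely irreducible over all finite extensions of `ℚ`. Then `V_ℓ` is semisimple for EVERY prime
number `ℓ`, also over all finite extensions of `ℚ`, and so are all its subrepresentations over finite
extensions.

For example this applies to the cohomology `H ^ 3` of Calabi-Yau threefolds over `ℚ` with `h ^ {2, 1}` at
most `2` (`N = 4` or `6`), and to all motives with polarization of dimension at most six, such as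
those of Siegel modular forms of degree two (`N = 4` and `5`). There is no condition on Hodge numbers,
on Frobenius polynomials, on the places of bad reduction or at the prime numbers `ℓ ≠ ℓ₀`; the
conclusion includes `ℓ = ℓ₀` and the prime numbers of bad reduction.

Idea of the proof. Let `𝔤` be the Lie algebra of the image of the Galois group of `ℚ` at `ℓ₀`. It
generates the algebra of all matrices, as this algebra contains the image of an open subgroup. So,
up to scalars and over the complex numbers, `𝔤` is a semisimple Lie algebra which acts irreducibly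
on a space of dimension `N ≤ 6`. Let `ω` be the highest weight of multiplicity at least two. It is not
the highest weight, so there are two positive roots `α ≠ β` such that `ω + α` and `ω + β` are weights,
and then `ω - α` and `ω - β` are weights; this gives `N ≥ 6`, and `N = 6` leads to a contradiction. So
all weights are of multiplicity one. If `N = 6` and the sum of three weights, no two of them equal or
opposite, is `0`, a root which connects these weights with the opposite ones leads to a
contradiction. So a generic element of `𝔤` has simple eigenvalues without isotropic relation, and such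
an element exists over `ℚ_ℓ₀`. Then the starting theorem `Pool.Agent.R932.SQ.semisimple_all` gives
semisimplicity for all prime numbers. In dimension `7` there is an isotropic relation between the
weights of the simple Lie algebra of type `G₂`.

The Lean proof is joint work with helper53 (descent to `ℚ_ℓ₀`, generic elements) and helper50 (weights,
root decomposition, sums of three weights).
-/

set_option autoImplicit false

namespace Pool.Agent.Results.MP_8f1292_ag.DimensionAtMostSix

open Matrix Polynomial Filter Topology NumberField IsDedekindDomain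

/-- the absolute Galois group, with the profinite (Krull) topology -/
abbrev AbsoluteGaloisGroup (K : Type) [Field K] : Type := Gal(AlgebraicClosure K/K)

/-- `σ` is a Frobenius element at the prime `v` of `K`: there is a maximal ideal `Q` above `v` of the
ring of all algebraic integers with `σ x ≡ x ^ N(v)` modulo `Q` for all `x` -/
def IsFrobenius {K : Type} [Field K] [NumberField K] (v : HeightOneSpectrum (𝓞 K))
    (σ : AbsoluteGaloisGroup K) : Prop :=
  ∃ Q : Ideal (𝓞 (AlgebraicClosure K)), Q.IsMaximal ∧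
    Q.comap (algebraMap (𝓞 K) (𝓞 (AlgebraicClosure K))) = v.asIdeal ∧
    ∀ x : 𝓞 (AlgebraicClosure K), σ • x - x ^ Ideal.absNorm v.asIdeal ∈ Q

/-- Representations `ρ ℓ` of a group `Γ` on the `N`-dimensional spaces over the fields of `ℓ`-adic
numbers, for all prime numbers `ℓ`, and a homomorphism `θ` from the absolute Galois group of `ℚ` to
`Γ`, such that
* `ρ ℓ` is continuous on the Galois group of `ℚ`,
* `Γ` acts by similitudes, with factor `χ ℓ`, of the nondegenerate symmetric or alternating form with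
  matrix `J ℓ`,
* the representations are pure of weight `w` and form a compatible system: outside of the finite set
  `S` of places the inverse of a Frobenius element at `v` acts for all `ℓ` not divisible by `v` with the
  characteristic polynomial `P v`, which has integral coefficients and complex roots of absolute value
  `N(v) ^ (w / 2)`, and with similitude factor `N(v) ^ w`. -/
structure IsPureSystem {Γ : Type} [Group Γ] (θ : AbsoluteGaloisGroup ℚ →* Γ) (N w : ℕ)
    (S : Set (HeightOneSpectrum (𝓞 ℚ))) (P : HeightOneSpectrum (𝓞 ℚ) → ℤ[X])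
    (ρ : ∀ (ℓ : ℕ) [Fact ℓ.Prime], Γ →* Matrix (Fin N) (Fin N) ℚ_[ℓ])
    (J : ∀ (ℓ : ℕ) [Fact ℓ.Prime], Matrix (Fin N) (Fin N) ℚ_[ℓ])
    (χ : ∀ (ℓ : ℕ) [Fact ℓ.Prime], Γ → ℚ_[ℓ]) : Prop where
  finite : S.Finite
  monic : ∀ v ∉ S, (P v).Monic
  weight : ∀ v ∉ S, ∀ z : ℂ, aeval z (P v) = 0 → ‖z‖ ^ 2 = (Ideal.absNorm v.asIdeal : ℝ) ^ w
  continuous : ∀ (ℓ : ℕ) [Fact ℓ.Prime], Continuous fun g => ρ ℓ (θ g)
  symm_or_alt : ∀ (ℓ : ℕ) [Fact ℓ.Prime], (J ℓ)ᵀ = J ℓ ∨ (J ℓ)ᵀ = -J ℓ
  nondegenerate : ∀ (ℓ : ℕ) [Fact ℓ.Prime], (J ℓ).det ≠ 0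
  similitude : ∀ (ℓ : ℕ) [Fact ℓ.Prime] (g : Γ), (ρ ℓ g)ᵀ * J ℓ * ρ ℓ g = χ ℓ g • J ℓ
  charpoly : ∀ (ℓ : ℕ) [Fact ℓ.Prime], ∀ v ∉ S, (ℓ : 𝓞 ℚ) ∉ v.asIdeal →
    ∀ σ : AbsoluteGaloisGroup ℚ, IsFrobenius v σ →
      (ρ ℓ (θ σ⁻¹)).charpoly = (P v).map (algebraMap ℤ ℚ_[ℓ])
  factor : ∀ (ℓ : ℕ) [Fact ℓ.Prime], ∀ v ∉ S, (ℓ : 𝓞 ℚ) ∉ v.asIdeal →
    ∀ σ : AbsoluteGaloisGroup ℚ, IsFrobenius v σ →
      χ ℓ (θ σ⁻¹) = (Ideal.absNorm v.asIdeal : ℚ_[ℓ]) ^ w

/-- the restriction of `ρ` to the subgroup `Δ` is absolutely irreducible: every matrix is a linear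
combination of the matrices `ρ σ`, `σ ∈ Δ` (by the theorem of Burnside this is the same as
irreducibility over the algebraic closure of `F`) -/
def IsAbsolutelyIrreducibleOn {F : Type} [Field F] {n : ℕ} {G : Type} [Group G]
    (ρ : G →* Matrix (Fin n) (Fin n) F) (Δ : Subgroup G) : Prop :=
  Submodule.span F {A : Matrix (Fin n) (Fin n) F | ∃ σ ∈ Δ, A = ρ σ} = ⊤

/-- the subspace `W` is stable under the subgroup `U` -/
def IsStable {F : Type} [Field F] {n : ℕ} {Γ : Type} [Group Γ] (ρ : Γ →* Matrix (Fin n) (Fin n) F)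
    (U : Subgroup Γ) (W : Submodule F (Fin n → F)) : Prop :=
  ∀ g ∈ U, ∀ x ∈ W, ρ g *ᵥ x ∈ W

/-- the subrepresentation `V` of the restriction to `U` is semisimple: every stable subspace of `V`
has a stable complement in `V` -/
def IsSemisimpleOn {F : Type} [Field F] {n : ℕ} {Γ : Type} [Group Γ]
    (ρ : Γ →* Matrix (Fin n) (Fin n) F) (U : Subgroup Γ) (V : Submodule F (Fin n → F)) : Prop :=
  ∀ W ≤ V, IsStable ρ U W → ∃ W' ≤ V, IsStable ρ U W' ∧ W ⊓ W' = ⊥ ∧ W ⊔ W' = V

/-- **Semisimplicity at every prime number from absolute irreducibility at one prime number, in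
dimension at most six.** -/
theorem result {Γ : Type} [Group Γ] (θ : AbsoluteGaloisGroup ℚ →* Γ) {N w : ℕ} (hN : N ≤ 6)
    (hw : 0 < w) (S : Set (HeightOneSpectrum (𝓞 ℚ))) (P : HeightOneSpectrum (𝓞 ℚ) → ℤ[X])
    (ρ : ∀ (ℓ : ℕ) [Fact ℓ.Prime], Γ →* Matrix (Fin N) (Fin N) ℚ_[ℓ])
    (J : ∀ (ℓ : ℕ) [Fact ℓ.Prime], Matrix (Fin N) (Fin N) ℚ_[ℓ])
    (χ : ∀ (ℓ : ℕ) [Fact ℓ.Prime], Γ → ℚ_[ℓ]) (h : IsPureSystem θ N w S P ρ J χ)
    -- absolute irreducibility over all finite extensions at one prime number
    (ℓ₀ : ℕ) [Fact ℓ₀.Prime]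
    (hirr : ∀ Δ : Subgroup (AbsoluteGaloisGroup ℚ), IsOpen (Δ : Set (AbsoluteGaloisGroup ℚ)) →
      IsAbsolutelyIrreducibleOn ((ρ ℓ₀).comp θ) Δ) :
    -- semisimplicity at every prime number
    ∀ (ℓ : ℕ) [Fact ℓ.Prime] (U : Subgroup Γ), U.FiniteIndex →
      ∀ V : Submodule ℚ_[ℓ] (Fin N → ℚ_[ℓ]), IsStable (ρ ℓ) U V → IsSemisimpleOn (ρ ℓ) U V := by
  intro ℓ hℓ U hU V hV W hWV hW
  exact (Pool.Agent.L7h78.DM.ss_of_irr (Pool.Agent.L7h53.DM.t_GEN Pool.Agent.L7h50.DM.t_RS
    Pool.Agent.L7h50.DM.t_WP Pool.Agent.L7h78.DM.t_MF Pool.Agent.L7h50.DM.t_T3)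
    (Module.finrank_self ℚ) θ hN hw h.finite P
    (fun v hv => ⟨h.monic v hv, h.weight v hv⟩) ρ (fun ℓ _ => h.continuous ℓ) J
    (fun ℓ _ => h.symm_or_alt ℓ) (fun ℓ _ => h.nondegenerate ℓ) χ (fun ℓ _ => h.similitude ℓ)
    (fun ℓ _ v hv hvℓ σ hσ => ⟨h.charpoly ℓ v hv hvℓ σ hσ, h.factor ℓ v hv hvℓ σ hσ⟩)
    ℓ₀ hirr ℓ U hU).sub hV hW hWV

end Pool.Agent.Results.MP_8f1292_ag.DimensionAtMostSix
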