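import Pool.Agent.L7h62.HT.Fin
import Pool.Agent.L7h62.HT.Gen
import Pool.Agent.L7h62.HT.Ball
import Pool.Agent.L7h37.HT.Sub
import Pool.Agent.L7h37.HT.Ax

/-!
# Semisimplicity for every `ℓ` from Hodge–Tate weights and finitely many Frobenius polynomials
-/

set_option autoImplicit false

namespace Pool.Agent.Results.MP_8f1292_ag.HodgeTateWeights

open NumberField IsDedekindDomain Polynomial Matrix Module

section places
variable {F : Type} [Field F] [NumberField F]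

/-- The place `v` of `F` lies above the prime number `p`. -/
def Above (v : HeightOneSpectrum (𝓞 F)) (p : ℕ) : Prop := (p : 𝓞 F) ∈ v.asIdeal

variable (F) in
/-- The prime number `p` is unramified in `F`. -/
def UnramifiedIn (p : ℕ) : Prop :=
  ∀ v : HeightOneSpectrum (𝓞 F), Above v p → (p : 𝓞 F) ∉ v.asIdeal ^ 2

/-- `q v` is the number of elements of the residue field of `v`. -/
noncomputable abbrev q (v : HeightOneSpectrum (𝓞 F)) : ℕ := Ideal.absNorm v.asIdeal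

/-- `Q` is a prime ideal above `v` of the ring of all algebraic integers in the algebraic
closure of `F`. -/
def PrimeOver (Q : Ideal (𝓞 (AlgebraicClosure F))) (v : HeightOneSpectrum (𝓞 F)) : Prop :=
  Q.IsPrime ∧ Q.comap (algebraMap (𝓞 F) (𝓞 (AlgebraicClosure F))) = v.asIdeal

end places

section frobenius
variable {F E : Type} [Field F] [NumberField F] [Field E] [NumberField E]

/-- A relation of size `k` at `p`: numbers `A v` (`k` of them, for every place `v` of `F` above `p`)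
whose product over all `v` is `p ^ (w * k * [F : ℚ] / 2)`, up to a root of unity, such that the numbers
in `A v`, together with the numbers `q v ^ w / a` for `a` in `A v`, are roots of `P v` (with
multiplicities). -/
def IsotropicRelation (P : HeightOneSpectrum (𝓞 F) → E[X]) (ι : E →+* ℂ) (w : ℤ)
    (p k : ℕ) : Prop :=
  ∃ A : HeightOneSpectrum (𝓞 F) → Multiset ℂ,
    (∀ v, Above v p → Multiset.card (A v) = k ∧
      A v + (A v).map (fun a => (q v : ℂ) ^ w / a) ≤ ((P v).map ι).roots) ∧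
    ∃ N : ℕ, 0 < N ∧ (∏ᶠ (v : HeightOneSpectrum (𝓞 F)) (_ : Above v p), (A v).prod) ^ (2 * N) =
      (p : ℂ) ^ (w * k * finrank ℚ F * N)

/-- `P v` has only simple roots, and no quotient of two of them is a root of unity. -/
def Neat (P : E[X]) (ι : E →+* ℂ) : Prop :=
  ∀ a b : ℂ, ({a, b} : Multiset ℂ) ≤ (P.map ι).roots → ∀ N : ℕ, 0 < N → a ^ N ≠ b ^ N

end frobenius

section types
variable {F : Type} [Field F] [NumberField F] {ℓ : ℕ} [Fact ℓ.Prime]

/-- `M t` is a multiset of integers (Hodge–Tate weights) for every embedding `t` of `F` into the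
algebraic closure of `ℚ_ℓ`. A type of size `k`: `k` integers `H t` for every `t`, such that the numbers
`h` in `H t`, together with the numbers `w - h`, are in `M t` (with multiplicities), and such that the
sum of all numbers in all `H t` is `w * k * [F : ℚ] / 2`. -/
def IsotropicType (M : (F →+* PadicAlgCl ℓ) → Multiset ℤ) (w : ℤ) (k : ℕ) : Prop :=
  ∃ H : (F →+* PadicAlgCl ℓ) → Multiset ℤ,
    (∀ t, Multiset.card (H t) = k ∧ H t + (H t).map (fun h => w - h) ≤ M t) ∧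
      2 * ∑ t, (H t).sum = w * k * finrank ℚ F

end types

section representation
variable {F E : Type} [Field F] [NumberField F] [Field E] [NumberField E]
  {𝕂 : Type} [NormedField 𝕂] {n : ℕ}

/-- The matrix of `g`. -/
noncomputable def mat (ρ : Gal(AlgebraicClosure F/F) →* GL (Fin n) 𝕂) (g : Gal(AlgebraicClosure F/F)) :
    Matrix (Fin n) (Fin n) 𝕂 := (ρ g : GL (Fin n) 𝕂)

/-- The representation `ρ` is unramified at `v`, every geometric Frobenius element at `v` has the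
characteristic polynomial `P`, with coefficients in `E`, and `P` is pure of weight `w`. -/
structure GoodAt (ρ : Gal(AlgebraicClosure F/F) →* GL (Fin n) 𝕂) (τ : E →+* 𝕂) (ι : E →+* ℂ)
    (w : ℤ) (v : HeightOneSpectrum (𝓞 F)) (P : E[X]) : Prop where
  unramified : ∀ Q, PrimeOver Q v → ∀ g : Gal(AlgebraicClosure F/F),
    (∀ x : 𝓞 (AlgebraicClosure F), g • x - x ∈ Q) → ρ g = 1
  frobenius : ∀ Q, PrimeOver Q v → ∀ g : Gal(AlgebraicClosure F/F),
    (∀ x : 𝓞 (AlgebraicClosure F), g • x - x ^ q v ∈ Q) → (mat ρ g⁻¹).charpoly = P.map τ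
  pure : ∀ a ∈ (P.map ι).roots, ‖a‖ ^ 2 = (q v : ℝ) ^ w

/-- `W` is stable under the Galois group. -/
def Stable (ρ : Gal(AlgebraicClosure F/F) →* GL (Fin n) 𝕂) (W : Submodule 𝕂 (Fin n → 𝕂)) :
    Prop := ∀ g, ∀ x ∈ W, mat ρ g *ᵥ x ∈ W

/-- Every stable subspace has a stable complement. -/
def Semisimple (ρ : Gal(AlgebraicClosure F/F) →* GL (Fin n) 𝕂) : Prop :=
  ∀ W, Stable ρ W → ∃ W', Stable ρ W' ∧ IsCompl W W'

/-- There is a non-degenerate symmetric or alternating bilinear form, with matrix `J`, such that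
`(gx, gy) = χ(g) ^ (-w) (x, y)` for the `ℓ`-adic cyclotomic character `χ`. -/
def Polarized (ℓ : ℕ) [Fact ℓ.Prime] [NormedAlgebra ℚ_[ℓ] 𝕂]
    (ρ : Gal(AlgebraicClosure F/F) →* GL (Fin n) 𝕂) (w : ℤ) : Prop :=
  ∃ J : Matrix (Fin n) (Fin n) 𝕂, J.det ≠ 0 ∧ (Jᵀ = J ∨ Jᵀ = -J) ∧
    ∀ g : Gal(AlgebraicClosure F/F), (mat ρ g)ᵀ * J * mat ρ g =
      (algebraMap ℚ_[ℓ] 𝕂 (cyclotomicCharacter (AlgebraicClosure F) ℓ g : ℤ_[ℓ])) ^ (-w) • J

/-- The continuous extension to `ℂ_ℓ` of an automorphism of the algebraic closure of `ℚ_ℓ`. -/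
noncomputable def ext {ℓ : ℕ} [Fact ℓ.Prime] (g : Gal(PadicAlgCl ℓ/ℚ_[ℓ])) : ℂ_[ℓ] → ℂ_[ℓ] :=
  UniformSpace.Completion.map g

/-- `ρ` is **Hodge–Tate** with the weights `M` (a multiset of `n` integers) at the embedding `e` of the
algebraic closure of `F` into that of `ℚ_ℓ`, for the embedding `c` of the coefficients into `ℂ_ℓ`: the
space `ℂ_ℓ ^ n` has a basis (the columns of `B`) such that `c(ρ(σ)) g(b_i) = χ(σ) ^ (-h_i) b_i`,
`M = {h_1, ..., h_n}`, whenever `g` is an automorphism of the algebraic closure of `ℚ_ℓ` which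
fixes `c(𝕂)` and the image of `F` and which induces `σ`. -/
def HodgeTate {ℓ : ℕ} [Fact ℓ.Prime] [NormedAlgebra ℚ_[ℓ] 𝕂]
    (ρ : Gal(AlgebraicClosure F/F) →* GL (Fin n) 𝕂) (e : AlgebraicClosure F →+* PadicAlgCl ℓ)
    (c : 𝕂 →ₐ[ℚ_[ℓ]] ℂ_[ℓ]) (M : Multiset ℤ) : Prop :=
  ∃ (B : Matrix (Fin n) (Fin n) ℂ_[ℓ]) (h : Fin n → ℤ), B.det ≠ 0 ∧ Finset.univ.val.map h = M ∧
    ∀ (g : Gal(PadicAlgCl ℓ/ℚ_[ℓ])) (σ : Gal(AlgebraicClosure F/F)),
      (∀ x, g (e x) = e (σ x)) → (∀ z, ext g (c z) = c z) →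
      ∀ i, (mat ρ σ).map c *ᵥ (fun j => ext g (B j i)) =
        (algebraMap ℚ_[ℓ] ℂ_[ℓ] (cyclotomicCharacter (AlgebraicClosure F) ℓ σ : ℤ_[ℓ])) ^ (-h i) •
          fun j => B j i

end representation

/-- **Semisimplicity for every `ℓ`, from the Hodge–Tate weights at `ℓ` and the Frobenius polynomials at
finitely many places.**

Let `ρ` be an `n`-dimensional continuous representation of the absolute Galois group of a number
field `F` over a finite extension `𝕂` of `ℚ_ℓ`, with a polarization. Let `T` be a set of at least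
three prime numbers `≠ ℓ`, unramified in `F`, such that `ρ` is good and pure of weight `w` at all
places above the `p ∈ T`, with Frobenius polynomials `P v` over a number field `E` with embeddings
`τ : E → 𝕂` and `ι : E → ℂ`. Let `ρ` be Hodge–Tate at all places above `ℓ`; `M t c` are the weights, for
the embeddings `t` of `F` and `c` of `𝕂`. (Example: `H^w(X, ℚ_ℓ)` for `X` smooth and projective over
`F`, with `E = ℚ` and `𝕂 = ℚ_ℓ`: then `M t c` consists of the integers `0 ≤ h ≤ w`, with the multiplicities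
`dim H^(w-h)(X, Ω^h)`; or a self-dual part of it cut out by a projector with coefficients in `E`.)

Then `ρ` is semisimple in each of the following cases.

* For every `0 < k ≤ n / 2` there is no isotropic relation of size `k` at some `p ∈ T`, or no isotropic
  type of size `k` for some `c`.
* `F = ℚ`, the Hodge–Tate weights are distinct for some `c`, and `n ≤ 5`, or `n ≤ 7` and `w` is odd.
* `w` and `[F : ℚ]` are odd, `n ≤ 7`, and for some `p ∈ T` there is only one place `v` above `p` and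
  `P v` is neat. -/
theorem result {F E : Type} [Field F] [NumberField F] [Field E] [NumberField E]
    (ℓ : ℕ) [Fact ℓ.Prime] {𝕂 : Type} [NormedField 𝕂] [NormedAlgebra ℚ_[ℓ] 𝕂]
    [FiniteDimensional ℚ_[ℓ] 𝕂] {n : ℕ} (ρ : Gal(AlgebraicClosure F/F) →* GL (Fin n) 𝕂)
    (hρ : Continuous ρ) (τ : E →+* 𝕂) (ι : E →+* ℂ) (w : ℤ)
    (P : HeightOneSpectrum (𝓞 F) → E[X]) (T : Set ℕ) (hT3 : 3 ≤ T.encard)
    (hT : ∀ p ∈ T, p.Prime ∧ p ≠ ℓ ∧ UnramifiedIn F p)
    (hP : ∀ p ∈ T, ∀ v, Above v p → GoodAt ρ τ ι w v (P v)) (hpol : Polarized ℓ ρ w)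
    (M : (F →+* PadicAlgCl ℓ) → (𝕂 →ₐ[ℚ_[ℓ]] ℂ_[ℓ]) → Multiset ℤ)
    (hM : ∀ (e : AlgebraicClosure F →+* PadicAlgCl ℓ) (c : 𝕂 →ₐ[ℚ_[ℓ]] ℂ_[ℓ]),
      HodgeTate ρ e c (M (e.comp (algebraMap F (AlgebraicClosure F))) c))
    (h : (∀ k, 0 < k → 2 * k ≤ n →
        (∃ p ∈ T, ¬ IsotropicRelation P ι w p k) ∨ ∃ c, ¬ IsotropicType (fun t => M t c) w k) ∨
      (finrank ℚ F = 1 ∧ (∃ c, ∀ t, (M t c).Nodup) ∧ (n ≤ 5 ∨ (n ≤ 7 ∧ Odd w))) ∨
      (Odd w ∧ Odd (finrank ℚ F) ∧ n ≤ 7 ∧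
        ∃ p ∈ T, ∃ v, (∀ v', Above v' p ↔ v' = v) ∧ Neat (P v) ι)) :
    Semisimple ρ := by
  classical
  have hSUB : Pool.Agent.L7h62.HT.S_SUB := Pool.Agent.L7h37.HT.s_SUB
  have hAUT := Pool.Agent.L7h62.HT.s_AUT ℓ
  have hT0 : Pool.Agent.L7h62.HT.S_T0F ℓ :=
    Pool.Agent.L7h62.HT.s_T0F ℓ (Pool.Agent.L7h62.HT.s_T0 ℓ (Pool.Agent.L7h37.HT.s_AX ℓ)
      (Pool.Agent.L7h37.HT.s_TR ℓ (Pool.Agent.L7h62.HT.s_BALL ℓ) hAUT)
      (Pool.Agent.L7h62.HT.s_GEN ℓ hAUT))
  have hgood := fun p hp v hv (Q : Ideal (𝓞 (AlgebraicClosure F))) hQ hQv =>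
    And.intro ((hP p hp v hv).unramified Q ⟨hQ, hQv⟩) ((hP p hp v hv).frobenius Q ⟨hQ, hQv⟩)
  have hpure := fun p hp v hv => (hP p hp v hv).pure
  -- an embedding of the coefficients
  have hc0 : Nonempty (𝕂 →ₐ[ℚ_[ℓ]] ℂ_[ℓ]) := ⟨IsAlgClosed.lift⟩
  have hrel' : ∀ k, 0 < k → 2 * k ≤ n →
      (∃ p ∈ T, ¬ Pool.Agent.Y115.M.IsoR P ι w p k) ∨
        ∃ c, ¬ Pool.Agent.L7h62.HT.IsoType ℓ (fun t => M t c) w k := by
    intro k hk hkn
    rcases h with h | ⟨hF, ⟨c, hc⟩, hn⟩ | ⟨hw, hF, hn, p, hp, v, hv, hneat⟩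
    · exact h k hk hkn
    · right
      refine ⟨c, ?_⟩
      by_cases hk2 : k ≤ 2
      · exact Pool.Agent.L7h62.HT.not_isoType_nodup ℓ _ hF hc hk hk2
      · have hk3 : k = 3 := by omega
        have hw : Odd w := by
          rcases hn with hn | hn
          · omega
          · exact hn.2
        exact Pool.Agent.L7h62.HT.not_isoType_odd ℓ _ hw (by rw [hk3]; decide) (by rw [hF]; decide)
    · by_cases hk2 : k ≤ 2
      · exact Or.inl ⟨p, hp, Pool.Agent.Y115.M.neat_not_iso P ι w (hT p hp).1 (hT p hp).2.2 hv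
          (hpure p hp v ((hv v).2 rfl)) hneat hk hk2⟩
      · have hk3 : k = 3 := by omega
        obtain ⟨c⟩ := hc0
        exact Or.inr ⟨c, Pool.Agent.L7h62.HT.not_isoType_odd ℓ _ hw (by rw [hk3]; decide) hF⟩
  obtain ⟨J, hJ, hsym, hJρ⟩ := hpol
  have hM' : ∀ (e : AlgebraicClosure F →+* PadicAlgCl ℓ) (c : 𝕂 →ₐ[ℚ_[ℓ]] ℂ_[ℓ]),
      Pool.Agent.L7h62.HT.HTat ℓ ρ e c (M (e.comp (algebraMap F (AlgebraicClosure F))) c) := by
    intro e c
    obtain ⟨B, h, hB, hMh, hg⟩ := hM e c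
    refine ⟨B, h, hB, hMh, fun g σ h1 h2 => ?_⟩
    ext j i
    have h3 := congrFun (hg g σ h1 h2 i) j
    rw [Matrix.mul_diagonal, Matrix.mul_apply]
    have h4 : Pool.Agent.L7h62.HT.chiC ℓ g =
        algebraMap ℚ_[ℓ] ℂ_[ℓ] (cyclotomicCharacter (AlgebraicClosure F) ℓ σ : ℤ_[ℓ]) := by
      unfold Pool.Agent.L7h62.HT.chiC
      rw [Pool.Agent.L7h62.HT.chiQ_compat ℓ e g σ h1]
      rfl
    rw [h4, mul_comm]
    exact h3
  intro W hW
  exact Pool.Agent.L7h62.HT.compl_of2 ℓ hSUB hT0 ρ hρ w τ ι T hT3 hT P hgood hpure J hJ hsym hJρ M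
    hM' hrel' W hW

end Pool.Agent.Results.MP_8f1292_ag.HodgeTateWeights
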