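import Pool.Agent.L7h78.VC.FinC

/-!
# Local monodromy with one Jordan block of size three and semisimplicity at every prime number

Let `(V_ℓ)` be the realizations of a pure motive over `ℚ` of weight `w > 0` with a SYMMETRIC
polarization, for all prime numbers `ℓ` (for instance the middle cohomology, or its primitive part,
of a smooth projective variety of even dimension; `IsPureSystem`; `Γ` is the Galois group of `ℚ` and
`θ` the identity, or `Γ` is the fundamental group of a variety with a rational point, as in the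
starting results on the conjecture of Grothendieck and Serre).

**Theorem.** Suppose that at ONE prime number `ℓ₀` some element `g` of the Galois group of `ℚ` (for
instance of an inertia group at a prime number `p` of bad reduction) acts as a unipotent map with ONE
Jordan block of size three and all other Jordan blocks of size one:
`(g - 1) ^ 3 = 0`, `(g - 1) ^ 2 ≠ 0` and `g - 1` has rank two. Suppose that the conjugates of the
isotropic line `(g - 1) ^ 2 V_ℓ₀` by the elements of every open subgroup of the Galois group span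
`V_ℓ₀` (this is so, for instance, if `V_ℓ₀` is irreducible over all finite extensions of `ℚ`). Then
`V_ℓ` is semisimple for EVERY prime number `ℓ`, also over all finite extensions of `ℚ`, and so are all
its subrepresentations over finite extensions.

This is the local monodromy of the most degenerate kind for Hodge structures of the type of a K3
surface (type III), in every dimension; with the hand-in `VanishingCycles` (ordinary double points)
it covers the two simplest kinds of local monodromy for symmetric polarizations. There is no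
condition on Hodge numbers, on Frobenius polynomials or at the prime numbers `ℓ ≠ ℓ₀`, and nothing
has to be known about the size of the image of Galois; the conclusion includes `ℓ = p` and `ℓ = ℓ₀`.

Idea of the proof. One shows that `g` is an isometry, `g = exp (u ∧ v)` with an isotropic vector `u`
and a vector `v` orthogonal to `u` with `(v, v) ≠ 0`, and `u ∧ v` is in the Lie algebra `𝔤` of the image
of the Galois group of `ℚ` at `ℓ₀`. Let `u' ∧ v'` be a conjugate with `(u, u') ≠ 0`. Brackets of these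
two elements show that there are three orthogonal vectors `r₁, r₂, r₃`, not isotropic, with
`rᵢ ∧ rⱼ ∈ 𝔤`, and `r₁ ∧ u ∈ 𝔤`; further brackets show that the space of the vectors `x` with
`x ∧ r₁ ∈ 𝔤` is stable under `𝔤`, so under an open subgroup, so it is everything, and `𝔤` contains the
whole orthogonal Lie algebra. (For square zero elements of rank two this is not true: unitary groups
contain them.) The starting theorem `Pool.Agent.R932.SQ.semisimple_full` gives semisimplicity for all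
prime numbers.
-/

set_option autoImplicit false

namespace Pool.Agent.Results.MP_8f1292_ag.OneBlockOfSizeThree

open Matrix Polynomial Filter Topology NumberField IsDedekindDomain

/-- the absolute Galois group, with the profinite (Krull) topology -/
abbrev AbsoluteGaloisGroup (K : Type) [Field K] : Type := Gal(AlgebraicClosure K/K)

/-- `σ` is a Frobenius element at the prime `v` of `K`: there is a maximal ideal `Q` above `v` of the
ring of all algebraic integers with `σ x ≡ x ^ N(v)` modulo `Q` for all `x` -/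
def IsFrobenius {K : Type} [Field K] [NumberField K] (v : HeightOneSpectrum (𝓞 K))
    (σ : AbsoluteGaloisGroup K) : Prop :=
  ∃ Q : Ideal (𝓞 (AlgebraicClosure K)), Q.IsMaximal ∧
    Q.comap (algebraMap (𝓞 K) (𝓞 (AlgebraicClosure K))) = v.asIdeal ∧
    ∀ x : 𝓞 (AlgebraicClosure K), σ • x - x ^ Ideal.absNorm v.asIdeal ∈ Q

/-- Representations `ρ ℓ` of a group `Γ` on the `N`-dimensional spaces over the fields of `ℓ`-adic
numbers, for all prime numbers `ℓ`, and a homomorphism `θ` from the absolute Galois group of `ℚ` to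
`Γ`, such that
* `ρ ℓ` is continuous on the Galois group of `ℚ`,
* `Γ` acts by similitudes, with factor `χ ℓ`, of the nondegenerate symmetric or alternating form with
  matrix `J ℓ`,
* the representations are pure of weight `w` and form a compatible system: outside of the finite set
  `S` of places the inverse of a Frobenius element at `v` acts for all `ℓ` not divisible by `v` with the
  characteristic polynomial `P v`, which has integral coefficients and complex roots of absolute value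
  `N(v) ^ (w / 2)`, and with similitude factor `N(v) ^ w`. -/
structure IsPureSystem {Γ : Type} [Group Γ] (θ : AbsoluteGaloisGroup ℚ →* Γ) (N w : ℕ)
    (S : Set (HeightOneSpectrum (𝓞 ℚ))) (P : HeightOneSpectrum (𝓞 ℚ) → ℤ[X])
    (ρ : ∀ (ℓ : ℕ) [Fact ℓ.Prime], Γ →* Matrix (Fin N) (Fin N) ℚ_[ℓ])
    (J : ∀ (ℓ : ℕ) [Fact ℓ.Prime], Matrix (Fin N) (Fin N) ℚ_[ℓ])
    (χ : ∀ (ℓ : ℕ) [Fact ℓ.Prime], Γ → ℚ_[ℓ]) : Prop where
  finite : S.Finite
  monic : ∀ v ∉ S, (P v).Monic
  weight : ∀ v ∉ S, ∀ z : ℂ, aeval z (P v) = 0 → ‖z‖ ^ 2 = (Ideal.absNorm v.asIdeal : ℝ) ^ w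
  continuous : ∀ (ℓ : ℕ) [Fact ℓ.Prime], Continuous fun g => ρ ℓ (θ g)
  symm_or_alt : ∀ (ℓ : ℕ) [Fact ℓ.Prime], (J ℓ)ᵀ = J ℓ ∨ (J ℓ)ᵀ = -J ℓ
  nondegenerate : ∀ (ℓ : ℕ) [Fact ℓ.Prime], (J ℓ).det ≠ 0
  similitude : ∀ (ℓ : ℕ) [Fact ℓ.Prime] (g : Γ), (ρ ℓ g)ᵀ * J ℓ * ρ ℓ g = χ ℓ g • J ℓ
  charpoly : ∀ (ℓ : ℕ) [Fact ℓ.Prime], ∀ v ∉ S, (ℓ : 𝓞 ℚ) ∉ v.asIdeal →
    ∀ σ : AbsoluteGaloisGroup ℚ, IsFrobenius v σ →
      (ρ ℓ (θ σ⁻¹)).charpoly = (P v).map (algebraMap ℤ ℚ_[ℓ])
  factor : ∀ (ℓ : ℕ) [Fact ℓ.Prime], ∀ v ∉ S, (ℓ : 𝓞 ℚ) ∉ v.asIdeal →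
    ∀ σ : AbsoluteGaloisGroup ℚ, IsFrobenius v σ →
      χ ℓ (θ σ⁻¹) = (Ideal.absNorm v.asIdeal : ℚ_[ℓ]) ^ w

/-- `M` is unipotent with one Jordan block of size three and all others of size one -/
structure HasOneBlockOfSizeThree {F : Type} [Field F] {N : ℕ} (M : Matrix (Fin N) (Fin N) F) :
    Prop where
  cube : (M - 1) ^ 3 = 0
  square : (M - 1) ^ 2 ≠ 0
  rank : (M - 1).rank = 2

/-- the subspace `W` is stable under the subgroup `U` -/
def IsStable {F : Type} [Field F] {n : ℕ} {Γ : Type} [Group Γ] (ρ : Γ →* Matrix (Fin n) (Fin n) F)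
    (U : Subgroup Γ) (W : Submodule F (Fin n → F)) : Prop :=
  ∀ g ∈ U, ∀ x ∈ W, ρ g *ᵥ x ∈ W

/-- the subrepresentation `V` of the restriction to `U` is semisimple: every stable subspace of `V`
has a stable complement in `V` -/
def IsSemisimpleOn {F : Type} [Field F] {n : ℕ} {Γ : Type} [Group Γ]
    (ρ : Γ →* Matrix (Fin n) (Fin n) F) (U : Subgroup Γ) (V : Submodule F (Fin n → F)) : Prop :=
  ∀ W ≤ V, IsStable ρ U W → ∃ W' ≤ V, IsStable ρ U W' ∧ W ⊓ W' = ⊥ ∧ W ⊔ W' = V

/-- **Semisimplicity at every prime number from one Jordan block of size three at one prime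
number.** -/
theorem result {Γ : Type} [Group Γ] (θ : AbsoluteGaloisGroup ℚ →* Γ) {N w : ℕ} (hw : 0 < w)
    (S : Set (HeightOneSpectrum (𝓞 ℚ))) (P : HeightOneSpectrum (𝓞 ℚ) → ℤ[X])
    (ρ : ∀ (ℓ : ℕ) [Fact ℓ.Prime], Γ →* Matrix (Fin N) (Fin N) ℚ_[ℓ])
    (J : ∀ (ℓ : ℕ) [Fact ℓ.Prime], Matrix (Fin N) (Fin N) ℚ_[ℓ])
    (χ : ∀ (ℓ : ℕ) [Fact ℓ.Prime], Γ → ℚ_[ℓ]) (h : IsPureSystem θ N w S P ρ J χ)
    -- the unipotent element at one prime number
    (ℓ₀ : ℕ) [Fact ℓ₀.Prime] (hJ : (J ℓ₀)ᵀ = J ℓ₀) (g : AbsoluteGaloisGroup ℚ)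
    (hg : HasOneBlockOfSizeThree (ρ ℓ₀ (θ g)))
    (hspan : ∀ Δ : Subgroup (AbsoluteGaloisGroup ℚ), IsOpen (Δ : Set (AbsoluteGaloisGroup ℚ)) →
      Submodule.span ℚ_[ℓ₀]
        {x | ∃ σ ∈ Δ, ∃ y, x = ρ ℓ₀ (θ σ) *ᵥ ((ρ ℓ₀ (θ g) - 1) ^ 2 *ᵥ y)} = ⊤) :
    -- semisimplicity at every prime number
    ∀ (ℓ : ℕ) [Fact ℓ.Prime] (U : Subgroup Γ), U.FiniteIndex →
      ∀ V : Submodule ℚ_[ℓ] (Fin N → ℚ_[ℓ]), IsStable (ρ ℓ) U V → IsSemisimpleOn (ρ ℓ) U V := by
  intro ℓ hℓ U hU V hV W hWV hW
  exact (Pool.Agent.L7h78.VC.ss_of_jordan (Module.finrank_self ℚ) θ hw h.finite P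
    (fun v hv => ⟨h.monic v hv, h.weight v hv⟩) ρ (fun ℓ _ => h.continuous ℓ) J
    (fun ℓ _ => h.symm_or_alt ℓ) (fun ℓ _ => h.nondegenerate ℓ) χ (fun ℓ _ => h.similitude ℓ)
    (fun ℓ _ v hv hvℓ σ hσ => ⟨h.charpoly ℓ v hv hvℓ σ hσ, h.factor ℓ v hv hvℓ σ hσ⟩)
    ℓ₀ hJ g hg.cube hg.square hg.rank.le hspan ℓ U hU).sub hV hW hWV

end Pool.Agent.Results.MP_8f1292_ag.OneBlockOfSizeThree
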