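import Pool.Agent.L7h78.VC.Fin

/-!
# Vanishing cycles at one prime number and semisimplicity at every prime number

Let `(V_ℓ)` be the realizations of a pure motive over `ℚ` of weight `w > 0` with a polarization, for all
prime numbers `ℓ` (`IsPureSystem`; `Γ` is the Galois group of `ℚ` and `θ` the identity, or `Γ` is the
fundamental group of a variety with a rational point, as in the starting results on the conjecture
of Grothendieck and Serre). A vector `δ` of `V_ℓ` is called a vanishing cycle here if an element of the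
Galois group acts by the formula of Picard and Lefschetz, `x ↦ x + t (x, δ) δ` with `t ≠ 0`: a
transvection if the form is alternating, a reflection if it is symmetric. By the Picard-Lefschetz
formula there is a vanishing cycle for all `ℓ ≠ p` if the reduction of a suitable model at one prime
number `p` has one ordinary double point and no other singularity.

**Theorem.** Suppose that at ONE prime number `ℓ₀`
* the form is alternating, and `V_ℓ₀` is spanned by vanishing cycles; or
* the form is symmetric, and there is a vanishing cycle whose conjugates by the elements of every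
  open subgroup of the Galois group span `V_ℓ₀`.

Then `V_ℓ` is semisimple for EVERY prime number `ℓ`, also over all finite extensions of `ℚ`, and so are
all its subrepresentations over finite extensions.

For example, if the form is alternating (`w` odd), there is one double point and `V_ℓ₀` is irreducible
for one prime number `ℓ₀` (for instance because one Frobenius polynomial is irreducible over
`ℚ_ℓ₀`), then the first condition is satisfied, as the vanishing cycles span a stable subspace. In the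
symmetric case the second condition is satisfied if moreover `V_ℓ₀` is irreducible over all finite
extensions of `ℚ`. Motives `M` over a number field `F` with an alternating polarization are covered by
restriction of scalars: `R = Res M` is a motive over `ℚ`, `V_ℓ (M)` is a subrepresentation of
`V_ℓ (R)` over `F`, and if `M` has a double point at a place of `F` of degree one, unramified over the
prime number `p`, and good reduction at the other places above `p`, and if `V_ℓ₀ (M)` is irreducible,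
then the vanishing cycles span `V_ℓ₀ (R)`. There is no condition on Hodge numbers, on Frobenius
polynomials, or at the prime numbers `ℓ ≠ ℓ₀`, and nothing has to be known about the size of the image
of Galois; the conclusion includes `ℓ = p` and `ℓ = ℓ₀`.

Idea of the proof. Let `𝔤` be the Lie algebra of the image of the Galois group of `ℚ` at `ℓ₀`. In the
alternating case it contains the endomorphisms `x ↦ (x, δ) δ`. Brackets of such elements show that `V_ℓ₀`
is an orthogonal sum of hyperbolic planes whose symplectic Lie algebras are contained in `𝔤`. In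
the symmetric case conjugation with the reflection shows that `(X δ) ∧ δ` is in `𝔤` for all `X` in `𝔤`,
and the vectors `x` with `x ∧ δ` in `𝔤` form a subspace which is stable under an open subgroup, so it is
everything, and `𝔤` contains the orthogonal Lie algebra. In both cases there is an element of `𝔤`
with simple eigenvalues and without isotropic relation between them, and the starting theorem
`Pool.Agent.R932.SQ.semisimple_all` gives semisimplicity for all prime numbers.
-/

set_option autoImplicit false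

namespace Pool.Agent.Results.MP_8f1292_ag.VanishingCycles

open Matrix Polynomial Filter Topology NumberField IsDedekindDomain

/-- the absolute Galois group, with the profinite (Krull) topology -/
abbrev AbsoluteGaloisGroup (K : Type) [Field K] : Type := Gal(AlgebraicClosure K/K)

/-- `σ` is a Frobenius element at the prime `v` of `K`: there is a maximal ideal `Q` above `v` of the
ring of all algebraic integers with `σ x ≡ x ^ N(v)` modulo `Q` for all `x` -/
def IsFrobenius {K : Type} [Field K] [NumberField K] (v : HeightOneSpectrum (𝓞 K))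
    (σ : AbsoluteGaloisGroup K) : Prop :=
  ∃ Q : Ideal (𝓞 (AlgebraicClosure K)), Q.IsMaximal ∧
    Q.comap (algebraMap (𝓞 K) (𝓞 (AlgebraicClosure K))) = v.asIdeal ∧
    ∀ x : 𝓞 (AlgebraicClosure K), σ • x - x ^ Ideal.absNorm v.asIdeal ∈ Q

/-- Representations `ρ ℓ` of a group `Γ` on the `N`-dimensional spaces over the fields of `ℓ`-adic
numbers, for all prime numbers `ℓ`, and a homomorphism `θ` from the absolute Galois group of `ℚ` to
`Γ`, such that
* `ρ ℓ` is continuous on the Galois group of `ℚ`,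
* `Γ` acts by similitudes, with factor `χ ℓ`, of the nondegenerate symmetric or alternating form with
  matrix `J ℓ`,
* the representations are pure of weight `w` and form a compatible system: outside of the finite set
  `S` of places the inverse of a Frobenius element at `v` acts for all `ℓ` not divisible by `v` with the
  characteristic polynomial `P v`, which has integral coefficients and complex roots of absolute value
  `N(v) ^ (w / 2)`, and with similitude factor `N(v) ^ w`. -/
structure IsPureSystem {Γ : Type} [Group Γ] (θ : AbsoluteGaloisGroup ℚ →* Γ) (N w : ℕ)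
    (S : Set (HeightOneSpectrum (𝓞 ℚ))) (P : HeightOneSpectrum (𝓞 ℚ) → ℤ[X])
    (ρ : ∀ (ℓ : ℕ) [Fact ℓ.Prime], Γ →* Matrix (Fin N) (Fin N) ℚ_[ℓ])
    (J : ∀ (ℓ : ℕ) [Fact ℓ.Prime], Matrix (Fin N) (Fin N) ℚ_[ℓ])
    (χ : ∀ (ℓ : ℕ) [Fact ℓ.Prime], Γ → ℚ_[ℓ]) : Prop where
  finite : S.Finite
  monic : ∀ v ∉ S, (P v).Monic
  weight : ∀ v ∉ S, ∀ z : ℂ, aeval z (P v) = 0 → ‖z‖ ^ 2 = (Ideal.absNorm v.asIdeal : ℝ) ^ w
  continuous : ∀ (ℓ : ℕ) [Fact ℓ.Prime], Continuous fun g => ρ ℓ (θ g)
  symm_or_alt : ∀ (ℓ : ℕ) [Fact ℓ.Prime], (J ℓ)ᵀ = J ℓ ∨ (J ℓ)ᵀ = -J ℓ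
  nondegenerate : ∀ (ℓ : ℕ) [Fact ℓ.Prime], (J ℓ).det ≠ 0
  similitude : ∀ (ℓ : ℕ) [Fact ℓ.Prime] (g : Γ), (ρ ℓ g)ᵀ * J ℓ * ρ ℓ g = χ ℓ g • J ℓ
  charpoly : ∀ (ℓ : ℕ) [Fact ℓ.Prime], ∀ v ∉ S, (ℓ : 𝓞 ℚ) ∉ v.asIdeal →
    ∀ σ : AbsoluteGaloisGroup ℚ, IsFrobenius v σ →
      (ρ ℓ (θ σ⁻¹)).charpoly = (P v).map (algebraMap ℤ ℚ_[ℓ])
  factor : ∀ (ℓ : ℕ) [Fact ℓ.Prime], ∀ v ∉ S, (ℓ : 𝓞 ℚ) ∉ v.asIdeal →
    ∀ σ : AbsoluteGaloisGroup ℚ, IsFrobenius v σ →
      χ ℓ (θ σ⁻¹) = (Ideal.absNorm v.asIdeal : ℚ_[ℓ]) ^ w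

/-- `δ` is a vanishing cycle: some element `g` of the group acts by the formula of Picard and
Lefschetz, `x ↦ x + t (x, δ) δ` with `t ≠ 0`, where `(x, y) = xᵀ J y` -/
def IsVanishingCycle {ℓ : ℕ} [Fact ℓ.Prime] {N : ℕ} {G : Type} [Group G]
    (ρ : G →* Matrix (Fin N) (Fin N) ℚ_[ℓ]) (J : Matrix (Fin N) (Fin N) ℚ_[ℓ])
    (δ : Fin N → ℚ_[ℓ]) : Prop :=
  ∃ (g : G) (t : ℚ_[ℓ]), t ≠ 0 ∧ ∀ x, ρ g *ᵥ x = x + (t * (x ⬝ᵥ J *ᵥ δ)) • δ

/-- the subspace `W` is stable under the subgroup `U` -/
def IsStable {F : Type} [Field F] {n : ℕ} {Γ : Type} [Group Γ] (ρ : Γ →* Matrix (Fin n) (Fin n) F)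
    (U : Subgroup Γ) (W : Submodule F (Fin n → F)) : Prop :=
  ∀ g ∈ U, ∀ x ∈ W, ρ g *ᵥ x ∈ W

/-- the subrepresentation `V` of the restriction to `U` is semisimple: every stable subspace of `V`
has a stable complement in `V` -/
def IsSemisimpleOn {F : Type} [Field F] {n : ℕ} {Γ : Type} [Group Γ]
    (ρ : Γ →* Matrix (Fin n) (Fin n) F) (U : Subgroup Γ) (V : Submodule F (Fin n → F)) : Prop :=
  ∀ W ≤ V, IsStable ρ U W → ∃ W' ≤ V, IsStable ρ U W' ∧ W ⊓ W' = ⊥ ∧ W ⊔ W' = V

/-- **Semisimplicity at every prime number from the vanishing cycles at one prime number.** -/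
theorem result {Γ : Type} [Group Γ] (θ : AbsoluteGaloisGroup ℚ →* Γ) {N w : ℕ} (hw : 0 < w)
    (S : Set (HeightOneSpectrum (𝓞 ℚ))) (P : HeightOneSpectrum (𝓞 ℚ) → ℤ[X])
    (ρ : ∀ (ℓ : ℕ) [Fact ℓ.Prime], Γ →* Matrix (Fin N) (Fin N) ℚ_[ℓ])
    (J : ∀ (ℓ : ℕ) [Fact ℓ.Prime], Matrix (Fin N) (Fin N) ℚ_[ℓ])
    (χ : ∀ (ℓ : ℕ) [Fact ℓ.Prime], Γ → ℚ_[ℓ]) (h : IsPureSystem θ N w S P ρ J χ)
    -- the vanishing cycles at one prime number
    (ℓ₀ : ℕ) [Fact ℓ₀.Prime]
    (hvan : ((J ℓ₀)ᵀ = -J ℓ₀ ∧
        Submodule.span ℚ_[ℓ₀] {δ | IsVanishingCycle ((ρ ℓ₀).comp θ) (J ℓ₀) δ} = ⊤) ∨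
      ((J ℓ₀)ᵀ = J ℓ₀ ∧ ∃ δ, IsVanishingCycle ((ρ ℓ₀).comp θ) (J ℓ₀) δ ∧
        ∀ Δ : Subgroup (AbsoluteGaloisGroup ℚ), IsOpen (Δ : Set (AbsoluteGaloisGroup ℚ)) →
          Submodule.span ℚ_[ℓ₀] {x | ∃ σ ∈ Δ, x = ρ ℓ₀ (θ σ) *ᵥ δ} = ⊤)) :
    -- semisimplicity at every prime number
    ∀ (ℓ : ℕ) [Fact ℓ.Prime] (U : Subgroup Γ), U.FiniteIndex →
      ∀ V : Submodule ℚ_[ℓ] (Fin N → ℚ_[ℓ]), IsStable (ρ ℓ) U V → IsSemisimpleOn (ρ ℓ) U V := by
  intro ℓ hℓ U hU V hV W hWV hW
  exact (Pool.Agent.L7h78.VC.ss_of_van (Module.finrank_self ℚ) θ hw h.finite P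
    (fun v hv => ⟨h.monic v hv, h.weight v hv⟩) ρ (fun ℓ _ => h.continuous ℓ) J
    (fun ℓ _ => h.symm_or_alt ℓ) (fun ℓ _ => h.nondegenerate ℓ) χ (fun ℓ _ => h.similitude ℓ)
    (fun ℓ _ v hv hvℓ σ hσ => ⟨h.charpoly ℓ v hv hvℓ σ hσ, h.factor ℓ v hv hvℓ σ hσ⟩)
    ℓ₀ hvan ℓ U hU).sub hV hW hWV

end Pool.Agent.Results.MP_8f1292_ag.VanishingCycles
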